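import Pool.Agent.H705R3.BSD.HypFree

/-!
# Continuation of L-functions of varieties from averages at the central point

Let `C` be the hyperelliptic curve `y² = f(x)` over `ℚ` (any genus), `X = Cⁿ` and `i = 2 j + 1` odd.
Let `λ(x)` be the logarithm of `∏_{p ≤ x} det(1 - Frob_p p^(-(j+1)) | H^i(X))`, the product over the
good primes of the inverses of the Euler factors of `L(H^i(X), s)` at the central point `s = j + 1`,
where the Euler product is not known to converge. Nothing is assumed about `L(H^i(X), s)`.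

1. If, for some `0 ≤ δ`, the logarithmic sums `∑_{k ≤ x} λ(k) / k` are `O(x^(δ'))` for every
`δ' > δ`, then `L(H^i(X), s)` has a holomorphic continuation without zeros to `Re s > j + 1 + δ`.

2. If `∑_{k ≤ x} λ(k) / k ∼ κ ∑_{k ≤ x} log log k / k` for a real number `κ` (the quotient tends to
`κ`), then `L(H^i(X), s)` has a holomorphic continuation `G` without zeros to `Re s > j + 1`, the
half plane to the right of the centre, and `log |G(j + 1 + σ)| / log σ → κ` for `σ → 0+`.

Proof: Abel summation twice; the squares of the Frobenius eigenvalues are handled by comparison with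
`ζ`. The purity of the Frobenius eigenvalues is proved in the library (`traceH1_bound` of the
starting file `Pool/Agent/H341R2/CurveFacts.lean`); local data: helper438.
-/

set_option autoImplicit false

open Complex Filter Topology

namespace Pool.Agent.Results.MP_039d94_nt.AveragesContinuation

open Pool.Agent.H438R3.BSD.Gen Pool.Agent.H341R2 Pool.Agent.H705R3.BSDG

open Classical in
/-- See the introduction; `lH f n j x` is `λ(x)`, `goodFactor n (2 * j + 1) f 1 p s` is the Euler
factor at a good prime `p`, and `MR (lH f n j) x` the quotient in 2. -/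
theorem result (f : Polynomial ℤ) (hd : 1 ≤ f.natDegree) (n j : ℕ) :
    (∀ δ : ℝ, 0 ≤ δ →
      (∀ δ' : ℝ, δ < δ' → ∃ K : ℝ, ∀ x : ℕ, 1 ≤ x →
        |∑ k ∈ Finset.Icc 2 x, lH f n j k / k| ≤ K * (x : ℝ) ^ δ') →
      ∃ G : ℂ → ℂ, DifferentiableOn ℂ G {s | (j : ℝ) + 1 + δ < s.re} ∧
        (∀ s : ℂ, (j : ℝ) + 1 + δ < s.re → G s ≠ 0) ∧
        ∀ s : ℂ, (j : ℝ) + 3 / 2 < s.re → HasProd (fun p : Nat.Primes => if GoodPrime f 1 p then
          goodFactor n (2 * j + 1) f 1 p s else 1) (G s)) ∧
    (∀ κ : ℝ, Tendsto (MR (lH f n j)) atTop (𝓝 κ) →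
      ∃ G : ℂ → ℂ, DifferentiableOn ℂ G {s | (j : ℝ) + 1 < s.re} ∧
        (∀ s : ℂ, (j : ℝ) + 1 < s.re → G s ≠ 0) ∧
        (∀ s : ℂ, (j : ℝ) + 3 / 2 < s.re → HasProd (fun p : Nat.Primes => if GoodPrime f 1 p then
          goodFactor n (2 * j + 1) f 1 p s else 1) (G s)) ∧
        Tendsto (fun σ : ℝ => Real.log ‖G (j + 1 + σ)‖ / Real.log σ) (𝓝[>] 0) (𝓝 κ)) :=
  ⟨fun δ hδ h => hyp_theta f hd n j δ hδ h, fun κ h => hyp_free f hd n j κ h⟩

end Pool.Agent.Results.MP_039d94_nt.AveragesContinuation
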