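import Pool.Agent.H390R3.HW.MotQ

/-!
# Continuation of `L(Hʷ(X), s)` beyond the line of absolute convergence

For a system of Frobenius eigenvalues of arbitrary weight `w` (nothing is assumed on continuation
or modularity): one-sided bounds for the truncated Euler products at the centre `(w + 1)/2`,
together with a continuation along the real axis only, continue the Euler product to the half plane
`Re s > (w + 1)/2`, with a zero free function times `ζ(s - w/2)^r`; two-sided bounds do this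
without any other hypothesis.
-/

set_option autoImplicit false

open Filter Topology Finset

namespace Pool.Agent.Results.MP_039d94_nt.RealAxisContinuation

open Pool.Agent.H390R3.HW.MotQ

variable {w d : ℕ} {α : ℕ → Fin d → ℂ}

theorem ev_log : ∀ᶠ x : ℕ in atTop, (1 : ℝ) < Real.log x :=
  (Real.tendsto_log_atTop.comp tendsto_natCast_atTop_atTop).eventually_gt_atTop _

open Pool.Agent.H438R3.BSD Pool.Agent.H390R3.HW in
theorem avg_const (h : Sys w d α) (r : ℕ) (ε κ C : ℝ) (hε : ε = 1 ∨ ε = -1)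
    (hb : ∀ᶠ x : ℕ in atTop, ε * MotQ.LA w d r α κ x ≤ C) :
    ∃ C' : ℝ, ∀ n, 0 ≤ AS C' (GenN.mm (GenN.ellc Nat.Prime (cc w r α)) ε κ) n := by
  refine GenN.exists_const2 (loc h r) ε κ hε C ?_
  filter_upwards [hb, ev_log] with x hx hlog
  unfold Pool.Agent.H390R3.HW.MotQ.LA at hx
  simp_rw [log_EP h r] at hx
  rw [← mul_div_assoc, div_le_iff₀ (by linarith)] at hx
  exact hx

/-- **Continuation of the `L`-functions of varieties to a half plane.** -/
theorem result (w d r : ℕ) (α : ℕ → Fin d → ℂ) (hα : Sys w d α) (L : ℂ → ℂ)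
    (hL : IsEuler w d α L) :
    (∀ κ C : ℝ, (∀ᶠ x : ℕ in atTop, LA w d r α κ x ≤ C) →
      AlongReal w (((w : ℝ) + 1) / 2) (fun s => L s / riemannZeta (s - w / 2) ^ r) →
      ContinuesTo w r (((w : ℝ) + 1) / 2) L) ∧
    (∀ κ C : ℝ, (∀ᶠ x : ℕ in atTop, C ≤ LA w d r α κ x) →
      AlongReal w (((w : ℝ) + 1) / 2) (fun s => riemannZeta (s - w / 2) ^ r / L s) →
      ContinuesTo w r (((w : ℝ) + 1) / 2) L) ∧
    (∀ κ C : ℝ, (∀ᶠ x : ℕ in atTop, |LA w d r α κ x| ≤ C) →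
      ContinuesTo w r (((w : ℝ) + 1) / 2) L) ∧
    (∀ θ C : ℝ, ((w : ℝ) + 1) / 2 < θ → θ ≤ (w : ℝ) / 2 + 1 →
      ((∀ᶠ x : ℕ in atTop, Real.log (EP w d r α x) ≤ C * (x : ℝ) ^ (θ - ((w : ℝ) + 1) / 2)) →
        AlongReal w θ (fun s => L s / riemannZeta (s - w / 2) ^ r) → ContinuesTo w r θ L) ∧
      ((∀ᶠ x : ℕ in atTop, -(C * (x : ℝ) ^ (θ - ((w : ℝ) + 1) / 2)) ≤ Real.log (EP w d r α x)) →
        AlongReal w θ (fun s => riemannZeta (s - w / 2) ^ r / L s) → ContinuesTo w r θ L) ∧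
      ((∀ᶠ x : ℕ in atTop, |Real.log (EP w d r α x)| ≤ C * (x : ℝ) ^ (θ - ((w : ℝ) + 1) / 2)) →
        ContinuesTo w r θ L)) := by
  have hloc := loc hα r
  have hpr := prod hα r hL
  have hc : ((w : ℝ) + 1) / 2 = 1 + ((w : ℝ) - 1) / 2 := by ring
  have e1 : ∀ η : ℝ, AlongReal w (η + ((w : ℝ) - 1) / 2)
      (fun s => L s / riemannZeta (s - w / 2) ^ r) → Pool.Agent.H390R3.HW.AlongReal η
      (fun s => if (1 : ℝ) = 1 then PP w r L s else (PP w r L s)⁻¹) := by
    intro η h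
    have h' := along w η _ (PP w r L) (fun s _ => pos_eq w r L s) h
    simpa using h'
  have e2 : ∀ η : ℝ, AlongReal w (η + ((w : ℝ) - 1) / 2)
      (fun s => riemannZeta (s - w / 2) ^ r / L s) → Pool.Agent.H390R3.HW.AlongReal η
      (fun s => if (-1 : ℝ) = 1 then PP w r L s else (PP w r L s)⁻¹) := by
    intro η h
    have h1 : ¬ ((-1 : ℝ) = 1) := by norm_num
    have h' := along w η _ (fun s => (PP w r L s)⁻¹) (fun s _ => neg_eq w r L s) h
    simpa only [if_neg h1] using h'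
  refine ⟨fun κ C hb hΦ => ?_, fun κ C hb hΦ => ?_, fun κ C hb => ?_,
    fun θ C hθ hθ2 => ⟨fun hb hΦ => ?_, fun hb hΦ => ?_, fun hb => ?_⟩⟩
  · obtain ⟨C', hC'⟩ := avg_const hα r 1 κ C (Or.inl rfl) (by simpa using hb)
    rw [hc] at hΦ ⊢
    exact cont w r 1 L (Pool.Agent.H390R3.HW.ext2 hloc 1 κ C' (Or.inl rfl) hC' (PP w r L) hpr
      (e1 1 hΦ))
  · obtain ⟨C', hC'⟩ := avg_const hα r (-1) κ (-C) (Or.inr rfl) (by
      filter_upwards [hb] with x hx
      linarith)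
    rw [hc] at hΦ ⊢
    exact cont w r 1 L (Pool.Agent.H390R3.HW.ext2 hloc (-1) κ C' (Or.inr rfl) hC' (PP w r L) hpr
      (e2 1 hΦ))
  · obtain ⟨C', hC'⟩ := avg_const hα r 1 κ C (Or.inl rfl) (by
      filter_upwards [hb] with x hx
      linarith [le_abs_self (LA w d r α κ x)])
    obtain ⟨D', hD'⟩ := avg_const hα r (-1) κ C (Or.inr rfl) (by
      filter_upwards [hb] with x hx
      linarith [neg_abs_le (LA w d r α κ x)])
    rw [hc]
    exact cont w r 1 L (Pool.Agent.H390R3.HW.ext2abs hloc κ C' D' hC' hD' (PP w r L) hpr)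
  all_goals
    have hη : 0 < θ - ((w : ℝ) + 1) / 2 := by linarith
    have hη2 : θ - ((w : ℝ) + 1) / 2 ≤ 1 / 2 := by linarith
    have hθe : θ = 1 + (θ - ((w : ℝ) + 1) / 2) + ((w : ℝ) - 1) / 2 := by ring
    set η := θ - ((w : ℝ) + 1) / 2 with hηdef
  · obtain ⟨C', D, hG⟩ := Pool.Agent.H390R3.HW.ev1 hloc 1 C η (Or.inl rfl) hη.le (by
      filter_upwards [hb] with x hx
      rw [← log_EP hα r]
      linarith)
    rw [hθe] at hΦ ⊢
    exact cont w r (1 + η) L (Pool.Agent.H390R3.HW.ext1 hloc 1 C' D η (Or.inl rfl) hη hη2 hG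
      (PP w r L) hpr (e1 (1 + η) hΦ))
  · obtain ⟨C', D, hG⟩ := Pool.Agent.H390R3.HW.ev1 hloc (-1) C η (Or.inr rfl) hη.le (by
      filter_upwards [hb] with x hx
      rw [← log_EP hα r]
      linarith)
    rw [hθe] at hΦ ⊢
    exact cont w r (1 + η) L (Pool.Agent.H390R3.HW.ext1 hloc (-1) C' D η (Or.inr rfl) hη hη2 hG
      (PP w r L) hpr (e2 (1 + η) hΦ))
  · obtain ⟨D, hG⟩ := Pool.Agent.H390R3.HW.ev1abs
      (Pool.Agent.H438R3.BSD.GenN.ellc Nat.Prime (cc w r α)) C η hη.le (by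
      filter_upwards [hb] with x hx
      rw [← log_EP hα r]
      exact hx)
    rw [hθe]
    exact cont w r (1 + η) L (Pool.Agent.H390R3.HW.ext1abs hloc D η hη.le hG (PP w r L) hpr)

end Pool.Agent.Results.MP_039d94_nt.RealAxisContinuation
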